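import Mathlib

set_option autoImplicit false

namespace Pool.Agent.Results.MP_a6ecd6_co.Counter

/-- A `d`-dimensional latin hypercube of order `n`. -/
def IsLatin {d n : ℕ} (Q : (Fin d → Fin n) → Fin n) : Prop :=
  ∀ (x : Fin d → Fin n) (i : Fin d), Function.Bijective fun a => Q (Function.update x i a)

/-- A `k`-multiplex of `Q`. -/
def IsMultiplex {d n : ℕ} (Q : (Fin d → Fin n) → Fin n) (k : ℕ) (K : Multiset (Fin d → Fin n)) :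
    Prop :=
  K.card = k * n ∧ (∀ (i : Fin d) (a : Fin n), K.countP (fun x => x i = a) = k) ∧
    ∀ s : Fin n, K.countP (fun x => Q x = s) = k

def L (r c : Fin 6) : Fin 6 :=
  ![![4, 2, 0, 3, 5, 1], ![3, 1, 5, 4, 0, 2], ![2, 4, 3, 0, 1, 5], ![5, 3, 2, 1, 4, 0], ![0,
   5, 1, 2, 3, 4], ![1, 0, 4, 5, 2, 3]] r c

def Q (x : Fin 2 → Fin 6) : Fin 6 := L (x 0) (x 1)

def KL : List (Fin 2 → Fin 6) :=
  [![0, 0], ![1, 1], ![2, 2], ![3, 3], ![4, 4], ![5, 5], ![0, 0], ![1, 2], ![2, 1], ![3, 5],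
   ![4, 3], ![5, 4], ![0, 1], ![1, 2], ![2, 4], ![3, 5], ![4, 0], ![5, 3], ![0, 0], ![1, 1],
   ![2, 2], ![3, 4], ![4, 3], ![5, 5], ![0, 1], ![1, 2], ![2, 4], ![3, 5], ![4, 0], ![5, 3]]

lemma latin : IsLatin Q := by
  unfold IsLatin
  decide +kernel

lemma multi : IsMultiplex Q 5 (KL : Multiset (Fin 2 → Fin 6)) := by
  unfold IsMultiplex
  decide +kernel

set_option synthInstance.maxSize 4000 in
lemma notr : ∀ a b c d e f : Fin 6, ¬ (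
    (a ≠ b ∧ L 0 a ≠ L 1 b) ∧ (a ≠ c ∧ L 0 a ≠ L 2 c) ∧ (b ≠ c ∧ L 1 b ≠ L 2 c) ∧ (a ≠ d ∧ L 0
    a ≠ L 3 d) ∧ (b ≠ d ∧ L 1 b ≠ L 3 d) ∧ (c ≠ d ∧ L 2 c ≠ L 3 d) ∧ (a ≠ e ∧ L 0 a ≠ L 4 e) ∧
    (b ≠ e ∧ L 1 b ≠ L 4 e) ∧ (c ≠ e ∧ L 2 c ≠ L 4 e) ∧ (d ≠ e ∧ L 3 d ≠ L 4 e) ∧ (a ≠ f ∧ L 0
    a ≠ L 5 f) ∧ (b ≠ f ∧ L 1 b ≠ L 5 f) ∧ (c ≠ f ∧ L 2 c ≠ L 5 f) ∧ (d ≠ f ∧ L 3 d ≠ L 5 f) ∧
    (e ≠ f ∧ L 4 e ≠ L 5 f)) := by
  decide +kernel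

lemma one (K : Multiset (Fin 2 → Fin 6)) (hK : K.Nodup) (p : (Fin 2 → Fin 6) → Prop)
    [DecidablePred p] (h5 : K.countP p = 5) (h6 : (Finset.univ.filter p).card = 6) :
    ∃ x, (x ∉ K ∧ p x) ∧ ∀ y, y ∉ K → p y → y = x := by
  have a : ((⟨K, hK⟩ : Finset _).filter p).card = 5 := by
    rw [← h5, Multiset.countP_eq_card_filter]
    rfl
  have b := Finset.card_filter_add_card_filter_not (s := Finset.univ.filter p) (fun x => x ∈ K)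
  have c : (Finset.univ.filter p).filter (fun x => x ∈ K) = (⟨K, hK⟩ : Finset _).filter p := by
    ext x
    simp [and_comm]
  rw [c, a, h6] at b
  obtain ⟨x, hx⟩ := Finset.card_eq_one.1
    (show ((Finset.univ.filter p).filter fun x => x ∉ K).card = 1 by omega)
  have m : ∀ y, (p y ∧ y ∉ K) ↔ y = x := fun y => by simpa using Finset.ext_iff.1 hx y
  exact ⟨x, ((m x).2 rfl).symm, fun y h1 h2 => (m y).1 ⟨h2, h1⟩⟩

lemma noplex (K : Multiset (Fin 2 → Fin 6)) (h : IsMultiplex Q 5 K) (hK : K.Nodup) : False := by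
  obtain ⟨-, h1, h2⟩ := h
  have c1 : ∀ (i : Fin 2) (a : Fin 6), (Finset.univ.filter fun x : Fin 2 → Fin 6 => x i = a).card = 6 := by
    decide +kernel
  have c2 : ∀ s : Fin 6, (Finset.univ.filter fun x => Q x = s).card = 6 := by decide +kernel
  choose x hx using fun r => one K hK _ (h1 0 r) (c1 0 r)
  have k : ∀ i j : Fin 6, i ≠ j → x i 1 ≠ x j 1 ∧ L i (x i 1) ≠ L j (x j 1) := by
    intro i j ne
    have ne' : x i ≠ x j := fun e => ne (by rw [← (hx i).1.2, e, (hx j).1.2])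
    constructor
    · intro e
      obtain ⟨y, -, hy⟩ := one K hK _ (h1 1 (x j 1)) (c1 1 _)
      exact ne' ((hy _ (hx i).1.1 e).trans (hy _ (hx j).1.1 rfl).symm)
    · intro e
      obtain ⟨y, -, hy⟩ := one K hK _ (h2 (Q (x j))) (c2 _)
      refine ne' ((hy _ (hx i).1.1 ?_).trans (hy _ (hx j).1.1 rfl).symm)
      rw [Q, Q, (hx i).1.2, (hx j).1.2, e]
  exact notr (x 0 1) (x 1 1) (x 2 1) (x 3 1) (x 4 1) (x 5 1)
    ⟨k 0 1 (by decide), k 0 2 (by decide), k 1 2 (by decide), k 0 3 (by decide), k 1 3 (by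
     decide), k 2 3 (by decide), k 0 4 (by decide), k 1 4 (by decide), k 2 4 (by decide), k 3
     4 (by decide), k 0 5 (by decide), k 1 5 (by decide), k 2 5 (by decide), k 3 5 (by
     decide), k 4 5 (by decide)⟩

theorem result : ¬ ∀ (d n k : ℕ), 2 ≤ d → 1 ≤ n → 1 ≤ k → k ≤ n ^ (d - 1) →
    ∀ Q : (Fin d → Fin n) → Fin n, IsLatin Q → (∃ K, IsMultiplex Q k K) →
      ∃ K, IsMultiplex Q k K ∧ K.Nodup := by
  intro h
  obtain ⟨K, h1, h2⟩ := h 2 6 5 le_rfl (by norm_num) (by norm_num) (by norm_num) Q latin ⟨_, multi⟩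
  exact noplex K h1 h2

end Pool.Agent.Results.MP_a6ecd6_co.Counter
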